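import Pool.Agent.U174.AK.Stm

/-!
# Project AK, package PLIM: pseudolimits exist by saturation
-/

set_option autoImplicit false

namespace Pool.Agent.U928.AK.PLIM

open Pool.Agent.U174.AK

theorem exists_close {F : Type} [Field F] {O : ValuationSubring F} {E : Subfield F} {x : F}
    (h : NoBest O E x) (e : ℕ → E) (m : ℕ) :
    ∃ a : E, ∀ i < m, O.valuation (x - (a : F)) < O.valuation (x - (e i : F)) := by
  induction m with
  | zero => exact ⟨0, fun i hi => absurd hi (Nat.not_lt_zero i)⟩
  | succ m ih =>
    obtain ⟨a, ha⟩ := ih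
    rcases le_total (O.valuation (x - (a : F))) (O.valuation (x - (e m : F))) with h1 | h1
    · obtain ⟨b, hb, hb2⟩ := h a a.2
      refine ⟨⟨b, hb⟩, fun i hi => ?_⟩
      rcases Nat.lt_succ_iff_lt_or_eq.1 hi with h2 | h2
      · exact hb2.trans (ha i h2)
      · subst h2
        exact lt_of_lt_of_le hb2 h1
    · obtain ⟨b, hb, hb2⟩ := h (e m) (e m).2
      refine ⟨⟨b, hb⟩, fun i hi => ?_⟩
      rcases Nat.lt_succ_iff_lt_or_eq.1 hi with h2 | h2
      · exact lt_of_lt_of_le hb2 (h1.trans (ha i h2).le)
      · subst h2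
        exact hb2

theorem t_PLIM : S_PLIM := by
  intro F L _ _ O P ρ ν hF hS hν E g hg x hx
  have : Countable E := inferInstance
  obtain ⟨e, he⟩ := exists_surjective_nat E
  obtain ⟨y, hy⟩ := hS (fun i => MvPolynomial.X 0 - MvPolynomial.C (g (e i)))
    (fun i => ν (O.valuation (x - (e i : F)))) (by
      intro m
      obtain ⟨a, ha⟩ := exists_close hx e m
      refine ⟨fun _ => g a, fun i hi => ?_⟩
      have h1 : O.valuation (((a - e i : E)) : F) = O.valuation (x - (e i : F)) := by
        have h2 : (((a - e i : E)) : F) = (x - (e i : F)) - (x - (a : F)) := by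
          push_cast
          ring
        rw [h2]
        exact Valuation.map_sub_eq_of_lt_left _ (ha i hi)
      have h3 := hg.val (a - e i)
      rw [h1] at h3
      rw [← h3]
      simp)
  refine ⟨y 0, fun a => ?_⟩
  obtain ⟨i, rfl⟩ := he a
  have := hy i
  simpa using this

end Pool.Agent.U928.AK.PLIM
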